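import Pool.Agent.Helper54.CG.NKGoals

/-!
# Project CG (MP_c70db9_ag), packet NK-C: the ball arithmetic is sound
-/

set_option autoImplicit false

namespace Pool.Agent.Helper14.CG.NKC

open Pool.Agent.Helper54.CG.NK

theorem norm_gauss (a b : ℤ) :
    ‖(a : ℂ) + (b : ℂ) * Complex.I‖ ≤ ((a.natAbs + b.natAbs : ℕ) : ℝ) := by
  refine (norm_add_le _ _).trans ?_
  rw [norm_mul, Complex.norm_I, mul_one, Complex.norm_intCast, Complex.norm_intCast]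
  push_cast
  rw [Nat.cast_natAbs, Nat.cast_natAbs]
  push_cast
  exact le_refl _

theorem fl (p : ℕ) (u : ℤ) : ‖(u : ℂ) / 2 ^ p - ((u / 2 ^ p : ℤ) : ℂ)‖ ≤ 1 := by
  have h2 : (0 : ℝ) < 2 ^ p := by positivity
  have h2c : (2 : ℂ) ^ p ≠ 0 := pow_ne_zero _ two_ne_zero
  have h1 := Int.mul_ediv_add_emod u (2 ^ p)
  have h3 := Int.emod_nonneg u (show (2 ^ p : ℤ) ≠ 0 by positivity)
  have h4 := Int.emod_lt_of_pos u (show (0 : ℤ) < 2 ^ p by positivity)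
  obtain ⟨q, hq⟩ : ∃ q : ℤ, q = u / 2 ^ p := ⟨_, rfl⟩
  obtain ⟨r, hr⟩ : ∃ r : ℤ, r = u % 2 ^ p := ⟨_, rfl⟩
  rw [← hq, ← hr] at h1
  rw [← hr] at h3 h4
  rw [← hq]
  have h5 : (u : ℂ) / 2 ^ p - (q : ℂ) = (r : ℂ) / 2 ^ p := by
    rw [← h1]
    push_cast
    field_simp
    ring
  rw [h5, norm_div, Complex.norm_intCast, norm_pow]
  have h6 : ‖(2 : ℂ)‖ = 2 := by simp
  rw [h6, div_le_one h2]
  have h7 : |(r : ℝ)| = (r : ℝ) := abs_of_nonneg (by exact_mod_cast h3)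
  rw [h7]
  have h8 : (r : ℝ) < ((2 ^ p : ℤ) : ℝ) := by exact_mod_cast h4
  push_cast at h8
  exact h8.le

theorem mem_mul (p : ℕ) (a b : Ball) (z w : ℂ) (hz : a.Mem p z) (hw : b.Mem p w) :
    (Ball.mul p a b).Mem p (z * w) := by
  unfold Ball.Mem at hz hw ⊢
  have h2 : (0 : ℝ) < 2 ^ p := by positivity
  have h2c : (2 : ℂ) ^ p ≠ 0 := pow_ne_zero _ two_ne_zero
  obtain ⟨A, hA⟩ : ∃ A : ℂ, A = (a.re : ℂ) + (a.im : ℂ) * Complex.I := ⟨_, rfl⟩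
  obtain ⟨B, hB⟩ : ∃ B : ℂ, B = (b.re : ℂ) + (b.im : ℂ) * Complex.I := ⟨_, rfl⟩
  have hAn : ‖A‖ ≤ ((a.re.natAbs + a.im.natAbs : ℕ) : ℝ) := by rw [hA]; exact norm_gauss _ _
  have hBn : ‖B‖ ≤ ((b.re.natAbs + b.im.natAbs : ℕ) : ℝ) := by rw [hB]; exact norm_gauss _ _
  rw [← hA] at hz
  rw [← hB] at hw
  obtain ⟨U, hU⟩ : ∃ U : ℤ, U = a.re * b.re - a.im * b.im := ⟨_, rfl⟩
  obtain ⟨V, hV⟩ : ∃ V : ℤ, V = a.re * b.im + a.im * b.re := ⟨_, rfl⟩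
  obtain ⟨E, hE⟩ : ∃ E : ℕ, E = (a.re.natAbs + a.im.natAbs) * b.rad +
    (b.re.natAbs + b.im.natAbs) * a.rad + a.rad * b.rad := ⟨_, rfl⟩
  have hAB : A * B = (U : ℂ) + (V : ℂ) * Complex.I := by
    rw [hA, hB, hU, hV]
    push_cast
    linear_combination ((a.im : ℂ) * (b.im : ℂ)) * Complex.I_mul_I
  have e1 : ‖((2 : ℂ) ^ p * z) * ((2 : ℂ) ^ p * w) - A * B‖ ≤ (E : ℝ) := by
    have e : ((2 : ℂ) ^ p * z) * ((2 : ℂ) ^ p * w) - A * B =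
        A * ((2 : ℂ) ^ p * w - B) + B * ((2 : ℂ) ^ p * z - A) +
          ((2 : ℂ) ^ p * z - A) * ((2 : ℂ) ^ p * w - B) := by ring
    rw [e]
    refine (norm_add_le _ _).trans ?_
    refine (add_le_add (norm_add_le _ _) le_rfl).trans ?_
    rw [norm_mul, norm_mul, norm_mul, hE]
    push_cast
    push_cast at hAn hBn
    refine add_le_add (add_le_add ?_ ?_) ?_
    · exact mul_le_mul hAn hw (norm_nonneg _) ((norm_nonneg _).trans hAn)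
    · exact mul_le_mul hBn hz (norm_nonneg _) ((norm_nonneg _).trans hBn)
    · exact mul_le_mul hz hw (norm_nonneg _) ((norm_nonneg _).trans hz)
  have e2 : ‖(2 : ℂ) ^ p * (z * w) - A * B / 2 ^ p‖ ≤ (E : ℝ) / 2 ^ p := by
    have e : (2 : ℂ) ^ p * (z * w) - A * B / 2 ^ p =
        (((2 : ℂ) ^ p * z) * ((2 : ℂ) ^ p * w) - A * B) / 2 ^ p := by
      field_simp
    rw [e, norm_div, norm_pow]
    have h6 : ‖(2 : ℂ)‖ = 2 := by simp
    rw [h6]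
    exact div_le_div_of_nonneg_right e1 h2.le
  have e3 : (E : ℝ) / 2 ^ p ≤ ((E / 2 ^ p : ℕ) : ℝ) + 1 := by
    rw [div_le_iff₀ h2]
    have h7 : E < 2 ^ p * (E / 2 ^ p + 1) := Nat.lt_mul_div_succ E (by positivity)
    have h8 : (E : ℝ) < ((2 ^ p * (E / 2 ^ p + 1) : ℕ) : ℝ) := by exact_mod_cast h7
    push_cast at h8
    linarith
  have e4 : ‖A * B / 2 ^ p - (((U / 2 ^ p : ℤ) : ℂ) + ((V / 2 ^ p : ℤ) : ℂ) * Complex.I)‖ ≤ 2 := by
    have e : A * B / 2 ^ p - (((U / 2 ^ p : ℤ) : ℂ) + ((V / 2 ^ p : ℤ) : ℂ) * Complex.I) =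
        ((U : ℂ) / 2 ^ p - ((U / 2 ^ p : ℤ) : ℂ)) +
          ((V : ℂ) / 2 ^ p - ((V / 2 ^ p : ℤ) : ℂ)) * Complex.I := by
      rw [hAB]
      ring
    rw [e]
    refine (norm_add_le _ _).trans ?_
    rw [norm_mul, Complex.norm_I, mul_one]
    have := fl p U
    have := fl p V
    linarith
  show ‖(2 : ℂ) ^ p * (z * w) - ((((a.re * b.re - a.im * b.im) / 2 ^ p : ℤ) : ℂ) +
    (((a.re * b.im + a.im * b.re) / 2 ^ p : ℤ) : ℂ) * Complex.I)‖ ≤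
    ((((a.re.natAbs + a.im.natAbs) * b.rad + (b.re.natAbs + b.im.natAbs) * a.rad
      + a.rad * b.rad) / 2 ^ p + 3 : ℕ) : ℝ)
  rw [← hU, ← hV, ← hE, Nat.cast_add]
  have e5 : (2 : ℂ) ^ p * (z * w) - (((U / 2 ^ p : ℤ) : ℂ) + ((V / 2 ^ p : ℤ) : ℂ) * Complex.I) =
      ((2 : ℂ) ^ p * (z * w) - A * B / 2 ^ p) +
        (A * B / 2 ^ p - (((U / 2 ^ p : ℤ) : ℂ) + ((V / 2 ^ p : ℤ) : ℂ) * Complex.I)) := by ring
  rw [e5]
  refine (norm_add_le _ _).trans ?_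
  push_cast
  push_cast at e3 e4
  linarith

theorem mem_pow (p : ℕ) (a : Ball) (z : ℂ) (hz : a.Mem p z) : ∀ n : ℕ,
    (Ball.pow p a n).Mem p (z ^ n)
  | 0 => by
    unfold Ball.Mem Ball.pow
    simp
  | 1 => by
    rw [pow_one]
    exact hz
  | n + 2 => by
    rw [pow_succ]
    exact mem_mul p _ _ _ _ (mem_pow p a z hz (n + 1)) hz

theorem t : S_C := by
  intro p X v e hX
  induction e with
  | k a b =>
    unfold Ball.Mem
    simp only [Ex.ball, Ex.eval]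
    push_cast
    have e : (2 : ℂ) ^ p * ((a : ℂ) + (b : ℂ) * Complex.I) -
        ((a : ℂ) * 2 ^ p + (b : ℂ) * 2 ^ p * Complex.I) = 0 := by ring
    rw [e, norm_zero]
  | x i => exact hX i
  | add e f he hf =>
    unfold Ball.Mem at he hf ⊢
    simp only [Ex.ball, Ex.eval, Ball.add]
    push_cast
    have e5 : (2 : ℂ) ^ p * (e.eval v + f.eval v) -
        ((((e.ball p X).re : ℂ) + ((f.ball p X).re : ℂ)) +
          (((e.ball p X).im : ℂ) + ((f.ball p X).im : ℂ)) * Complex.I) =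
        ((2 : ℂ) ^ p * e.eval v - (((e.ball p X).re : ℂ) + ((e.ball p X).im : ℂ) * Complex.I)) +
        ((2 : ℂ) ^ p * f.eval v - (((f.ball p X).re : ℂ) + ((f.ball p X).im : ℂ) * Complex.I)) := by
      ring
    rw [e5]
    exact (norm_add_le _ _).trans (add_le_add he hf)
  | mul e f he hf => exact mem_mul p _ _ _ _ he hf
  | pow e n he => exact mem_pow p _ _ he n

end Pool.Agent.Helper14.CG.NKC
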